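import Mathlib

/-!
# The indices of the even and of the odd terms of a meta-Fibonacci sequence are 2-regular

Every block `h (16 n), …, h (16 n + 15)` has exactly `8` odd terms, and the parities in the block
depend only on `n mod 4` and on the parity of `h (4 n)`.
-/

set_option autoImplicit false

namespace Pool.Agent.Results.MP_f90694_nt.BothRegular

/-- The defining properties of the sequence `h`: `h n = 1` for `n ≤ 0`, `h 1 = 1` and
`h n = h (n - h (n - 1)) + h (n - 2)` for `n > 1`. -/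
def IsH (h : ℤ → ℤ) : Prop :=
  (∀ n : ℤ, n ≤ 0 → h n = 1) ∧ h 1 = 1 ∧
    ∀ n : ℤ, 1 < n → h n = h (n - h (n - 1)) + h (n - 2)

/-- The `k`-kernel of a sequence: all the subsequences `n ↦ a (k ^ e * n + j)` with
`0 ≤ j < k ^ e`. -/
def kernel (k : ℕ) (a : ℕ → ℤ) : Set (ℕ → ℤ) :=
  {b | ∃ e j : ℕ, j < k ^ e ∧ b = fun n => a (k ^ e * n + j)}

/-- An integer sequence is `k`-regular if the `ℤ`-module generated by its `k`-kernel is finitely
generated. -/
def IsRegular (k : ℕ) (a : ℕ → ℤ) : Prop := (Submodule.span ℤ (kernel k a)).FG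

/-! ### A criterion -/

lemma regular_of_blocks {a : ℕ → ℤ} (M : Submodule ℤ (ℕ → ℤ)) (hM : M.FG)
    (hcl : ∀ g ∈ M, ∀ i < 2, (fun n => g (2 * n + i)) ∈ M)
    (ha : ∀ j < 8, (fun n => a (8 * n + j)) ∈ M) : IsRegular 2 a := by
  have key : ∀ e j : ℕ, j < 2 ^ (e + 3) → (fun n => a (2 ^ (e + 3) * n + j)) ∈ M := by
    intro e
    induction e with
    | zero =>
      intro j hj
      exact ha j (by simpa using hj)
    | succ e ih =>
      intro j hj
      have hpos : 0 < 2 ^ (e + 3) := by positivity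
      have h1 : j / 2 ^ (e + 3) < 2 := by
        rw [Nat.div_lt_iff_lt_mul hpos]
        calc j < 2 ^ (e + 1 + 3) := hj
          _ = 2 * 2 ^ (e + 3) := by ring
      have h2 := hcl _ (ih (j % 2 ^ (e + 3)) (Nat.mod_lt _ hpos)) _ h1
      have h3 : (fun n => a (2 ^ (e + 3) * (2 * n + j / 2 ^ (e + 3)) + j % 2 ^ (e + 3))) =
          (fun n => a (2 ^ (e + 1 + 3) * n + j)) := by
        funext n
        congr 1
        have := Nat.div_add_mod j (2 ^ (e + 3))
        calc 2 ^ (e + 3) * (2 * n + j / 2 ^ (e + 3)) + j % 2 ^ (e + 3)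
            = 2 ^ (e + 1 + 3) * n + (2 ^ (e + 3) * (j / 2 ^ (e + 3)) + j % 2 ^ (e + 3)) := by ring
          _ = 2 ^ (e + 1 + 3) * n + j := by rw [this]
      rw [← h3]
      exact h2
  set F : Set (ℕ → ℤ) :=
    (fun q : ℕ × ℕ => (fun n => a (2 ^ q.1 * n + q.2))) '' (↑(Finset.range 3 ×ˢ Finset.range 8))
    with hF
  have hFfin : F.Finite := Set.Finite.image _ (Finset.finite_toSet _)
  have hle : Submodule.span ℤ (kernel 2 a) ≤ M ⊔ Submodule.span ℤ F := by
    rw [Submodule.span_le]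
    rintro b ⟨e, j, hj, rfl⟩
    rcases Nat.lt_or_ge e 3 with he | he
    · apply Submodule.mem_sup_right
      apply Submodule.subset_span
      refine ⟨(e, j), ?_, rfl⟩
      have h8 : j < 8 := lt_of_lt_of_le hj (by
        calc 2 ^ e ≤ 2 ^ 3 := Nat.pow_le_pow_right (by norm_num) (by omega)
          _ = 8 := by norm_num)
      simp [he, h8]
    · obtain ⟨c, rfl⟩ := Nat.exists_eq_add_of_le he
      rw [Nat.add_comm 3 c] at hj ⊢
      exact Submodule.mem_sup_left (key c j hj)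
  have hfg : (M ⊔ Submodule.span ℤ F).FG := hM.sup (Submodule.fg_span hFfin)
  exact hfg.of_le hle

/-! ### The sequence -/

section

variable {h : ℤ → ℤ} (hh : IsH h)

include hh

lemma values (n : ℕ) : h (2 * n + 1) = n + 1 ∧ h (2 * n + 2) = h (2 * n) + h (n + 1) ∧
    (2 * n + 2 : ℤ) ≤ h (2 * n + 2) := by
  obtain ⟨h0, h1, h2⟩ := hh
  induction n using Nat.strong_induction_on with
  | _ n ih =>
    rcases Nat.eq_zero_or_pos n with rfl | hn
    · have e2 : h 2 = h 1 + h 0 := by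
        have := h2 2 (by norm_num)
        norm_num [h1] at this
        rw [h1]
        exact this
      have e0 : h 0 = 1 := h0 0 le_rfl
      refine ⟨?_, ?_, ?_⟩
      · norm_num [h1]
      · norm_num
        rw [e2]; ring
      · norm_num
        rw [e2, h1, e0]; norm_num
    · obtain ⟨m, rfl⟩ : ∃ m, n = m + 1 := ⟨n - 1, by omega⟩
      obtain ⟨i1, i2, i3⟩ := ih m (by omega)
      have o1 : h (2 * ((m + 1 : ℕ) : ℤ) + 1) = ((m + 1 : ℕ) : ℤ) + 1 := by
        rw [h2 _ (by push_cast; omega)]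
        have e1 : (2 * ((m + 1 : ℕ) : ℤ) + 1 - 1) = 2 * (m : ℤ) + 2 := by push_cast; ring
        have e2 : (2 * ((m + 1 : ℕ) : ℤ) + 1 - 2) = 2 * (m : ℤ) + 1 := by push_cast; ring
        rw [e1, e2, i1]
        have e3 : h (2 * ((m + 1 : ℕ) : ℤ) + 1 - h (2 * (m : ℤ) + 2)) = 1 := by
          have h3 : 2 * ((m + 1 : ℕ) : ℤ) + 1 - h (2 * (m : ℤ) + 2) ≤ 1 := by push_cast; omega
          rcases lt_or_eq_of_le h3 with h4 | h4
          · exact h0 _ (by omega)
          · rw [h4, h1]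
        rw [e3]; push_cast; ring
      have o2 : h (2 * ((m + 1 : ℕ) : ℤ) + 2) =
          h (2 * ((m + 1 : ℕ) : ℤ)) + h (((m + 1 : ℕ) : ℤ) + 1) := by
        rw [h2 (2 * ((m + 1 : ℕ) : ℤ) + 2) (by push_cast; omega)]
        have e1 : (2 * ((m + 1 : ℕ) : ℤ) + 2 - 1) = 2 * ((m + 1 : ℕ) : ℤ) + 1 := by ring
        have e2 : (2 * ((m + 1 : ℕ) : ℤ) + 2 - 2) = 2 * ((m + 1 : ℕ) : ℤ) := by ring
        have e3 : (2 * ((m + 1 : ℕ) : ℤ) + 2 - (((m + 1 : ℕ) : ℤ) + 1)) =
            ((m + 1 : ℕ) : ℤ) + 1 := by ring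
        rw [e1, e2, o1, e3, add_comm]
      refine ⟨o1, o2, ?_⟩
      rw [o2]
      have e4 : (2 * ((m + 1 : ℕ) : ℤ)) = 2 * (m : ℤ) + 2 := by push_cast; ring
      rw [e4]
      -- `h (m + 2) ≥ 2`
      have h5 : 2 ≤ h (((m + 1 : ℕ) : ℤ) + 1) := by
        rcases Nat.even_or_odd' m with ⟨q, rfl | rfl⟩
        · have := (ih q (by omega)).2.2
          have e5 : (((2 * q + 1 : ℕ) : ℤ) + 1) = 2 * (q : ℤ) + 2 := by push_cast; ring
          rw [e5]; omega
        · have := (ih (q + 1) (by omega)).1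
          have e5 : (((2 * q + 1 + 1 : ℕ) : ℤ) + 1) = 2 * ((q + 1 : ℕ) : ℤ) + 1 := by
            push_cast; ring
          rw [e5, this]; push_cast; omega
      omega

/-- `c n = n (n - 1) / 2 mod 2`. -/
def c (n : ℕ) : ℤ := if n % 4 < 2 then 0 else 1

omit hh in
lemma c_cases (n : ℕ) : (n % 4 = 0 ∧ c n = 0) ∨ (n % 4 = 1 ∧ c n = 0) ∨ (n % 4 = 2 ∧ c n = 1) ∨
    (n % 4 = 3 ∧ c n = 1) := by
  unfold c
  split_ifs with h1 <;> omega

lemma odd_values (n : ℕ) : h (4 * n + 1) = 2 * n + 1 ∧ h (4 * n + 3) = 2 * n + 2 := by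
  have v1 := (values hh (2 * n)).1
  have v2 := (values hh (2 * n + 1)).1
  push_cast at v1 v2
  constructor
  · rw [show (4 * (n : ℤ) + 1) = 2 * (2 * n) + 1 by ring, v1]
  · rw [show (4 * (n : ℤ) + 3) = 2 * (2 * n + 1) + 1 by ring, v2]; ring

lemma h42 (n : ℕ) : h (4 * n + 2) = h (4 * n) + n + 1 := by
  have v1 := (values hh (2 * n)).2.1
  have v2 := (values hh n).1
  push_cast at v1 v2
  rw [show (4 * (n : ℤ) + 2) = 2 * (2 * n) + 2 by ring, v1, v2,
    show (2 * (2 * (n : ℤ))) = 4 * n by ring]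
  ring

lemma h44 (n : ℕ) : h (4 * n + 4) = h (4 * n) + n + 1 + h (2 * n + 2) := by
  have v1 := (values hh (2 * n + 1)).2.1
  have v2 := h42 hh n
  push_cast at v1 v2
  rw [show (4 * (n : ℤ) + 4) = 2 * (2 * n + 1) + 2 by ring, v1,
    show (2 * (2 * (n : ℤ) + 1)) = 4 * n + 2 by ring, v2,
    show (2 * (n : ℤ) + 1 + 1) = 2 * n + 2 by ring]

/-- `h (8 n) ≡ h (4 n) + c n`. -/
lemma h8 (n : ℕ) : (h (8 * n) - h (4 * n) - c n) % 2 = 0 := by
  induction n with
  | zero => simp [c]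
  | succ n ih =>
    have a1 := h44 hh (2 * n + 1)
    have a2 := h44 hh (2 * n)
    have a3 := h44 hh n
    have a4 := h42 hh n
    push_cast at a1 a2 a3 a4 ⊢
    have e1 : h (8 * ((n : ℤ) + 1)) = h (4 * (2 * (n : ℤ) + 1) + 4) := by
      rw [show (8 * ((n : ℤ) + 1)) = 4 * (2 * (n : ℤ) + 1) + 4 by ring]
    have e2 : h (4 * (2 * (n : ℤ) + 1)) = h (4 * (2 * (n : ℤ)) + 4) := by
      rw [show (4 * (2 * (n : ℤ) + 1)) = 4 * (2 * (n : ℤ)) + 4 by ring]
    have e3 : h (4 * (2 * (n : ℤ))) = h (8 * n) := by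
      rw [show (4 * (2 * (n : ℤ))) = 8 * n by ring]
    have e4 : h (2 * (2 * (n : ℤ) + 1) + 2) = h (4 * n + 4) := by
      rw [show (2 * (2 * (n : ℤ) + 1) + 2) = 4 * n + 4 by ring]
    have e5 : h (2 * (2 * (n : ℤ)) + 2) = h (4 * n + 2) := by
      rw [show (2 * (2 * (n : ℤ)) + 2) = 4 * n + 2 by ring]
    have e6 : h (4 * ((n : ℤ) + 1)) = h (4 * n + 4) := by
      rw [show (4 * ((n : ℤ) + 1)) = 4 * n + 4 by ring]
    rw [e2, e4] at a1
    rw [e3, e5] at a2
    rw [e1, e6]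
    have c1 := c_cases n
    have c2 := c_cases (n + 1)
    omega

/-- `h (8 n + 4) ≡ c n + n`. -/
lemma h84 (n : ℕ) : (h (8 * n + 4) - c n - n) % 2 = 0 := by
  have a2 := h44 hh (2 * n)
  have a4 := h42 hh n
  have a5 := h8 hh n
  push_cast at a2 a4 a5 ⊢
  have e0 : h (8 * (n : ℤ) + 4) = h (4 * (2 * (n : ℤ)) + 4) := by
      rw [show (8 * (n : ℤ) + 4) = 4 * (2 * (n : ℤ)) + 4 by ring]
  have e3 : h (4 * (2 * (n : ℤ))) = h (8 * n) := by
      rw [show (4 * (2 * (n : ℤ))) = 8 * n by ring]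
  have e5 : h (2 * (2 * (n : ℤ)) + 2) = h (4 * n + 2) := by
      rw [show (2 * (2 * (n : ℤ)) + 2) = 4 * n + 2 by ring]
  rw [e3, e5] at a2
  rw [e0]
  omega

/-- The parities in a block of length `16`. -/
lemma block (n : ℕ) :
    (h (16 * n) - h (4 * n) - c n - c (2 * n)) % 2 = 0 ∧ h (16 * n + 1) % 2 = 1 ∧
    (h (16 * n + 2) - h (16 * n) - 1) % 2 = 0 ∧ h (16 * n + 3) % 2 = 0 ∧
    (h (16 * n + 4) - c (2 * n)) % 2 = 0 ∧ h (16 * n + 5) % 2 = 1 ∧
    (h (16 * n + 6) - h (16 * n + 4)) % 2 = 0 ∧ h (16 * n + 7) % 2 = 0 ∧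
    (h (16 * n + 8) - c n - n - c (2 * n + 1)) % 2 = 0 ∧ h (16 * n + 9) % 2 = 1 ∧
    (h (16 * n + 10) - h (16 * n + 8) - 1) % 2 = 0 ∧ h (16 * n + 11) % 2 = 0 ∧
    (h (16 * n + 12) - c (2 * n + 1) - 1) % 2 = 0 ∧ h (16 * n + 13) % 2 = 1 ∧
    (h (16 * n + 14) - h (16 * n + 12)) % 2 = 0 ∧ h (16 * n + 15) % 2 = 0 := by
  have a0 := h8 hh (2 * n)
  have a0' := h8 hh n
  have a1 := h84 hh (2 * n)
  have a2 := h8 hh (2 * n + 1)
  have a2' := h84 hh n
  have a3 := h84 hh (2 * n + 1)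
  have b0 := h42 hh (4 * n)
  have b1 := h42 hh (4 * n + 1)
  have b2 := h42 hh (4 * n + 2)
  have b3 := h42 hh (4 * n + 3)
  have d0 := odd_values hh (4 * n)
  have d1 := odd_values hh (4 * n + 1)
  have d2 := odd_values hh (4 * n + 2)
  have d3 := odd_values hh (4 * n + 3)
  push_cast at *
  have r1 : (8 * (2 * (n : ℤ))) = 16 * n := by ring
  have r2 : (4 * (2 * (n : ℤ))) = 8 * n := by ring
  have r3 : (8 * (2 * (n : ℤ) + 1)) = 16 * n + 8 := by ring
  have r4 : (4 * (2 * (n : ℤ) + 1)) = 8 * n + 4 := by ring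
  have r5 : (4 * (4 * (n : ℤ))) = 16 * n := by ring
  have r6 : (4 * (4 * (n : ℤ) + 1)) = 16 * n + 4 := by ring
  have r7 : (4 * (4 * (n : ℤ) + 2)) = 16 * n + 8 := by ring
  have r8 : (4 * (4 * (n : ℤ) + 3)) = 16 * n + 12 := by ring
  rw [r1] at a0 a1
  rw [r2] at a0
  rw [r3] at a2 a3
  rw [r4] at a2
  rw [r5] at b0 d0
  rw [r6] at b1 d1
  rw [r7] at b2 d2
  rw [r8] at b3 d3
  have s1 : (16 * (n : ℤ) + 4 + 2) = 16 * n + 6 := by ring
  have s2 : (16 * (n : ℤ) + 8 + 2) = 16 * n + 10 := by ring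
  have s3 : (16 * (n : ℤ) + 12 + 2) = 16 * n + 14 := by ring
  have s4 : (16 * (n : ℤ) + 4 + 1) = 16 * n + 5 := by ring
  have s5 : (16 * (n : ℤ) + 4 + 3) = 16 * n + 7 := by ring
  have s6 : (16 * (n : ℤ) + 8 + 1) = 16 * n + 9 := by ring
  have s7 : (16 * (n : ℤ) + 8 + 3) = 16 * n + 11 := by ring
  have s8 : (16 * (n : ℤ) + 12 + 1) = 16 * n + 13 := by ring
  have s9 : (16 * (n : ℤ) + 12 + 3) = 16 * n + 15 := by ring
  have s10 : (16 * (n : ℤ) + 8 + 4) = 16 * n + 12 := by ring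
  rw [s1] at b1
  rw [s2] at b2
  rw [s3] at b3
  rw [s4, s5] at d1
  rw [s6, s7] at d2
  rw [s8, s9] at d3
  rw [s10] at a3
  refine ⟨?_, ?_, ?_, ?_, ?_, ?_, ?_, ?_, ?_, ?_, ?_, ?_, ?_, ?_, ?_, ?_⟩ <;> omega

end

/-! ### A finitely generated module of sequences -/

/-- The sequences `α n + β (n mod 4) + γ (n mod 4) F n`. -/
def M (F : ℕ → ℤ) : Submodule ℤ (ℕ → ℤ) where
  carrier := {g | ∃ α : ℤ, ∃ β γ : ℕ → ℤ, ∀ n, g n = α * n + β (n % 4) + γ (n % 4) * F n}
  add_mem' := by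
    rintro g g' ⟨α, β, γ, hg⟩ ⟨α', β', γ', hg'⟩
    refine ⟨α + α', β + β', γ + γ', fun n => ?_⟩
    rw [Pi.add_apply, hg, hg', Pi.add_apply, Pi.add_apply]
    ring
  zero_mem' := ⟨0, 0, 0, fun n => by simp⟩
  smul_mem' := by
    rintro z g ⟨α, β, γ, hg⟩
    refine ⟨z * α, z • β, z • γ, fun n => ?_⟩
    rw [Pi.smul_apply, hg, Pi.smul_apply, Pi.smul_apply, smul_eq_mul, smul_eq_mul, smul_eq_mul]
    ring

lemma M_fg (F : ℕ → ℤ) : (M F).FG := by
  set G : Set (ℕ → ℤ) := {fun n : ℕ => (n : ℤ)} ∪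
    (Set.range (fun a : Fin 4 => fun n : ℕ => if n % 4 = a.val then (1 : ℤ) else 0)) ∪
    (Set.range (fun a : Fin 4 => fun n : ℕ => if n % 4 = a.val then F n else 0)) with hG
  have hGfin : G.Finite := ((Set.finite_singleton _).union (Set.finite_range _)).union
    (Set.finite_range _)
  refine (Submodule.fg_span hGfin).of_le ?_
  rintro g ⟨α, β, γ, hg⟩
  have hgeq : g = α • (fun n : ℕ => (n : ℤ)) +
      ∑ a : Fin 4, β a.val • (fun n : ℕ => if n % 4 = a.val then (1 : ℤ) else 0) +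
      ∑ a : Fin 4, γ a.val • (fun n : ℕ => if n % 4 = a.val then F n else 0) := by
    funext n
    rw [hg n]
    simp only [Pi.add_apply, Pi.smul_apply, Finset.sum_apply, smul_eq_mul, Fin.sum_univ_four]
    have h4 : n % 4 = 0 ∨ n % 4 = 1 ∨ n % 4 = 2 ∨ n % 4 = 3 := by omega
    rcases h4 with h | h | h | h <;> rw [h] <;> simp
  rw [hgeq]
  refine Submodule.add_mem _ (Submodule.add_mem _ ?_ ?_) ?_
  · exact Submodule.smul_mem _ _ (Submodule.subset_span (Or.inl (Or.inl rfl)))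
  · exact Submodule.sum_mem _ fun a _ =>
      Submodule.smul_mem _ _ (Submodule.subset_span (Or.inl (Or.inr ⟨a, rfl⟩)))
  · exact Submodule.sum_mem _ fun a _ =>
      Submodule.smul_mem _ _ (Submodule.subset_span (Or.inr ⟨a, rfl⟩))

lemma c_mod (n : ℕ) : c (n % 4) = c n := by
  unfold c
  rw [Nat.mod_mod]

lemma M_closed {h : ℤ → ℤ} (hh : IsH h) (g : ℕ → ℤ)
    (hg : g ∈ M (fun n => h (4 * n) % 2)) (i : ℕ) (hi : i < 2) :
    (fun n => g (2 * n + i)) ∈ M (fun n => h (4 * n) % 2) := by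
  obtain ⟨α, β, γ, hg⟩ := hg
  have hi' : i = 0 ∨ i = 1 := by omega
  rcases hi' with rfl | rfl
  · refine ⟨2 * α, fun a => β ((2 * a) % 4) + γ ((2 * a) % 4) * c a,
      fun a => γ ((2 * a) % 4) * (1 - 2 * c a), fun n => ?_⟩
    have h1 : (2 * n + 0) % 4 = (2 * (n % 4)) % 4 := by omega
    have h2 : h (4 * ((2 * n + 0 : ℕ) : ℤ)) % 2 =
        h (4 * n) % 2 * (1 - 2 * c n) + c n := by
      have a0 := h8 hh n
      have e : (4 * ((2 * n + 0 : ℕ) : ℤ)) = 8 * n := by push_cast; ring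
      rw [e]
      rcases c_cases n with h | h | h | h <;> rw [h.2] at a0 ⊢ <;> omega
    have h3 := hg (2 * n + 0)
    dsimp only at h3 ⊢
    rw [h3, h1, h2, c_mod]
    push_cast
    ring
  · refine ⟨2 * α, fun a => α + β ((2 * a + 1) % 4) + γ ((2 * a + 1) % 4) * ((c a + a) % 2),
      fun a => 0, fun n => ?_⟩
    have h1 : (2 * n + 1) % 4 = (2 * (n % 4) + 1) % 4 := by omega
    have h2 : h (4 * ((2 * n + 1 : ℕ) : ℤ)) % 2 = (c (n % 4) + ((n % 4 : ℕ) : ℤ)) % 2 := by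
      have a0 := h84 hh n
      have e : (4 * ((2 * n + 1 : ℕ) : ℤ)) = 8 * n + 4 := by push_cast; ring
      rw [e, c_mod]
      omega
    have h3 := hg (2 * n + 1)
    dsimp only at h3 ⊢
    rw [h3, h1, h2]
    push_cast
    ring

/-! ### Counting -/

lemma exists_of_lt_count (q : ℕ → Prop) [DecidablePred q] (L j : ℕ) (hj : j < Nat.count q L) :
    ∃ s, s < L ∧ q s ∧ Nat.count q s = j := by
  induction L with
  | zero => simp at hj
  | succ L ih =>
    rcases Nat.lt_or_ge j (Nat.count q L) with h1 | h1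
    · obtain ⟨s, h2, h3⟩ := ih h1
      exact ⟨s, by omega, h3⟩
    · rw [Nat.count_succ] at hj
      by_cases hq : q L
      · rw [if_pos hq] at hj
        exact ⟨L, by omega, hq, by omega⟩
      · rw [if_neg hq] at hj
        omega

lemma ite_one (a : ℤ) : (((if a % 2 = 1 then 1 else 0 : ℕ)) : ℤ) = a % 2 := by
  split_ifs with h <;> push_cast <;> omega

lemma ite_zero (a : ℤ) : (((if a % 2 = 0 then 1 else 0 : ℕ)) : ℤ) = 1 - a % 2 := by
  split_ifs with h <;> push_cast <;> omega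

lemma count_block {h : ℤ → ℤ} (hh : IsH h) (i : ℤ) (hi : i = 0 ∨ i = 1) (n : ℕ) :
    Nat.count (fun x => h ((16 * n + x : ℕ) : ℤ) % 2 = i) 16 = 8 := by
  obtain ⟨b0, b1, b2, b3, b4, b5, b6, b7, b8, b9, b10, b11, b12, b13, b14, b15⟩ := block hh n
  have c1 := c_cases n
  have c2 := c_cases (2 * n)
  have c3 := c_cases (2 * n + 1)
  have key : ((Nat.count (fun x => h ((16 * n + x : ℕ) : ℤ) % 2 = i) 16 : ℕ) : ℤ) = 8 := by
    rcases hi with rfl | rfl
    · simp only [Nat.count_succ, Nat.count_zero]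
      push_cast [ite_zero]
      have z : ∀ a : ℤ, (if a % 2 = 0 then (1 : ℤ) else 0) = 1 - a % 2 := by
        intro a; split_ifs <;> omega
      simp only [z, add_zero]
      omega
    · simp only [Nat.count_succ, Nat.count_zero]
      push_cast [ite_one]
      have z : ∀ a : ℤ, (if a % 2 = 1 then (1 : ℤ) else 0) = a % 2 := by
        intro a; split_ifs <;> omega
      simp only [z, add_zero]
      omega
  exact_mod_cast key

lemma pattern {h : ℤ → ℤ} (hh : IsH h) (n n' : ℕ) (h1 : h (4 * n) % 2 = h (4 * n') % 2)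
    (h2 : n % 4 = n' % 4) (x : ℕ) (hx : x < 16) :
    h ((16 * n + x : ℕ) : ℤ) % 2 = h ((16 * n' + x : ℕ) : ℤ) % 2 := by
  obtain ⟨b0, b1, b2, b3, b4, b5, b6, b7, b8, b9, b10, b11, b12, b13, b14, b15⟩ := block hh n
  obtain ⟨d0, d1, d2, d3, d4, d5, d6, d7, d8, d9, d10, d11, d12, d13, d14, d15⟩ := block hh n'
  have c1 : c n = c n' := by unfold c; rw [h2]
  have c2 : c (2 * n) = c (2 * n') := by
    unfold c; rw [show 2 * n % 4 = 2 * n' % 4 by omega]
  have c3 : c (2 * n + 1) = c (2 * n' + 1) := by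
    unfold c; rw [show (2 * n + 1) % 4 = (2 * n' + 1) % 4 by omega]
  rw [c1, c2] at b0
  rw [c2] at b4
  rw [c1, c3] at b8
  rw [c3] at b12
  have e0 : h (16 * n) % 2 = h (16 * n') % 2 := by clear * - b0 d0 h1; omega
  have e2 : h (16 * n + 2) % 2 = h (16 * n' + 2) % 2 := by clear * - b2 d2 e0; omega
  have e4 : h (16 * n + 4) % 2 = h (16 * n' + 4) % 2 := by clear * - b4 d4; omega
  have e6 : h (16 * n + 6) % 2 = h (16 * n' + 6) % 2 := by clear * - b6 d6 e4; omega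
  have e8 : h (16 * n + 8) % 2 = h (16 * n' + 8) % 2 := by clear * - b8 d8 h2; omega
  have e10 : h (16 * n + 10) % 2 = h (16 * n' + 10) % 2 := by clear * - b10 d10 e8; omega
  have e12 : h (16 * n + 12) % 2 = h (16 * n' + 12) % 2 := by clear * - b12 d12; omega
  have e14 : h (16 * n + 14) % 2 = h (16 * n' + 14) % 2 := by clear * - b14 d14 e12; omega
  interval_cases x <;> push_cast
  · rw [add_zero, add_zero]; exact e0
  · rw [b1, d1]
  · exact e2
  · rw [b3, d3]
  · exact e4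
  · rw [b5, d5]
  · exact e6
  · rw [b7, d7]
  · exact e8
  · rw [b9, d9]
  · exact e10
  · rw [b11, d11]
  · exact e12
  · rw [b13, d13]
  · exact e14
  · rw [b15, d15]

lemma count_prefix {h : ℤ → ℤ} (hh : IsH h) (i : ℤ) (hi : i = 0 ∨ i = 1) (n : ℕ) :
    Nat.count (fun m : ℕ => h (m : ℤ) % 2 = i) (16 * n) = 8 * n := by
  induction n with
  | zero => simp
  | succ n ih =>
    rw [show 16 * (n + 1) = 16 * n + 16 by ring, Nat.count_add, ih, count_block hh i hi]
    ring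

/-- The nonnegative part of the sequence. -/
def H (n : ℕ) : ℤ :=
  if n = 0 then 1 else if n % 2 = 1 then (n / 2 : ℕ) + 1 else
    H (n - 2) + H (n / 2)
termination_by n
decreasing_by all_goals omega

lemma H_odd (n : ℕ) : H (2 * n + 1) = n + 1 := by
  rw [H, if_neg (by omega), if_pos (by omega), show (2 * n + 1) / 2 = n by omega]

lemma H_even (n : ℕ) : H (2 * n + 2) = H (2 * n) + H (n + 1) := by
  rw [H, if_neg (by omega), if_neg (by omega), show (2 * n + 2) - 2 = 2 * n by omega,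
    show (2 * n + 2) / 2 = n + 1 by omega]

lemma H_zero : H 0 = 1 := by rw [H, if_pos rfl]

lemma H_ge (n : ℕ) : 2 ≤ H (n + 2) ∧ (2 * n + 2 : ℤ) ≤ H (2 * n + 2) := by
  induction n using Nat.strong_induction_on with
  | _ n ih =>
    have h1 : 2 ≤ H (n + 2) := by
      rcases Nat.even_or_odd' n with ⟨m, rfl | rfl⟩
      · rcases Nat.eq_zero_or_pos m with rfl | hm
        · have := H_even 0
          have h1 := H_odd 0
          rw [show 2 * 0 + 2 = 2 by norm_num, show 0 + 1 = 1 by norm_num,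
            show 2 * 0 = 0 by norm_num, H_zero] at this
          rw [show 2 * 0 + 1 = 1 by norm_num] at h1
          rw [show 2 * 0 + 2 = 2 by norm_num, this, h1]
          norm_num
        · have := (ih m (by omega)).2
          omega
      · rw [show 2 * m + 1 + 2 = 2 * (m + 1) + 1 by ring, H_odd]
        push_cast; omega
    refine ⟨h1, ?_⟩
    rcases Nat.eq_zero_or_pos n with rfl | hn
    · simpa using h1
    · obtain ⟨m, rfl⟩ : ∃ m, n = m + 1 := ⟨n - 1, by omega⟩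
      have h2 := (ih m (by omega)).2
      have h3 := (ih m (by omega)).1
      rw [H_even, show 2 * (m + 1) = 2 * m + 2 by ring, show m + 1 + 1 = m + 2 by ring]
      push_cast
      omega

lemma exists_h : ∃ h : ℤ → ℤ, IsH h := by
  have hnat : ∀ n : ℕ, (fun m : ℤ => if m ≤ 0 then 1 else H m.toNat) (n : ℤ) = H n := by
    intro n
    rcases Nat.eq_zero_or_pos n with rfl | hn
    · simp [H_zero]
    · simp only []
      rw [if_neg (by omega)]
      simp
  refine ⟨fun m => if m ≤ 0 then 1 else H m.toNat, ?_, ?_, ?_⟩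
  · intro n hn
    simp [hn]
  · have h1 := H_odd 0
    simpa using h1
  · intro n hn
    set h : ℤ → ℤ := fun m : ℤ => if m ≤ 0 then 1 else H m.toNat with hh
    have hle : ∀ m : ℤ, m ≤ 1 → h m = 1 := by
      intro m hm
      rcases lt_or_eq_of_le hm with h2 | h2
      · simp only [hh]; rw [if_pos (by omega)]
      · have h1 := H_odd 0
        rw [h2]
        simpa [hh] using h1
    obtain ⟨N, rfl⟩ := Int.eq_ofNat_of_zero_le (by omega : 0 ≤ n)
    rcases Nat.even_or_odd' N with ⟨m, rfl | rfl⟩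
    · obtain ⟨q, rfl⟩ : ∃ q, m = q + 1 := ⟨m - 1, by omega⟩
      have e1 : (((2 * (q + 1) : ℕ) : ℤ) - 1) = ((2 * q + 1 : ℕ) : ℤ) := by push_cast; ring
      have e2 : (((2 * (q + 1) : ℕ) : ℤ) - 2) = ((2 * q : ℕ) : ℤ) := by push_cast; ring
      rw [e1, e2, hnat, hnat, hnat, H_odd, show 2 * (q + 1) = 2 * q + 2 by ring, H_even]
      have e3 : (((2 * q + 2 : ℕ) : ℤ) - ((q : ℤ) + 1)) = ((q + 1 : ℕ) : ℤ) := by push_cast; ring
      rw [e3, hnat, add_comm]
    · obtain ⟨q, rfl⟩ : ∃ q, m = q + 1 := ⟨m - 1, by omega⟩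
      have e1 : (((2 * (q + 1) + 1 : ℕ) : ℤ) - 1) = ((2 * q + 2 : ℕ) : ℤ) := by push_cast; ring
      have e2 : (((2 * (q + 1) + 1 : ℕ) : ℤ) - 2) = ((2 * q + 1 : ℕ) : ℤ) := by push_cast; ring
      have h3 := (H_ge q).2
      rw [e1, e2, hnat, hnat, hnat, H_odd, H_odd, hle _ (by push_cast; omega)]
      push_cast; ring

/-- The sequence `h` exists, and for `i = 0` and `i = 1` the increasing enumeration of the indices
`m ≥ 0` with `h m ≡ i (mod 2)` is `2`-regular. -/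
theorem result : (∃ h : ℤ → ℤ, IsH h) ∧ ∀ h : ℤ → ℤ, IsH h → ∀ i : ℤ, i = 0 ∨ i = 1 →
    {m : ℕ | h (m : ℤ) % 2 = i}.Infinite ∧
    IsRegular 2 (fun n => (Nat.nth (fun m : ℕ => h (m : ℤ) % 2 = i) n : ℤ)) := by
  classical
  refine ⟨exists_h, fun h hh i hi => ?_⟩
  set p : ℕ → Prop := fun m : ℕ => h (m : ℤ) % 2 = i with hp
  -- the positions in the blocks
  have hpos : ∀ n j : ℕ, ∃ s : ℕ, j < 8 → s < 16 ∧ p (16 * n + s) ∧
      Nat.count (fun x => p (16 * n + x)) s = j := by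
    intro n j
    by_cases hj : j < 8
    · have h8 := count_block hh i hi n
      obtain ⟨s, h1, h2, h3⟩ := exists_of_lt_count (fun x => p (16 * n + x)) 16 j
        (lt_of_lt_of_eq hj h8.symm)
      exact ⟨s, fun _ => ⟨h1, h2, h3⟩⟩
    · exact ⟨0, fun h => absurd h hj⟩
  choose s hs using hpos
  have hnth : ∀ n j : ℕ, j < 8 → Nat.nth p (8 * n + j) = 16 * n + s n j := by
    intro n j hj
    obtain ⟨h1, h2, h3⟩ := hs n j hj
    have h4 : Nat.count p (16 * n + s n j) = 8 * n + j := by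
      rw [Nat.count_add, count_prefix hh i hi n, h3]
    rw [← h4, Nat.nth_count h2]
  constructor
  · -- the set is infinite
    rw [Set.infinite_iff_exists_gt]
    intro N
    obtain ⟨h1, h2, h3⟩ := hs (N + 1) 0 (by norm_num)
    exact ⟨_, h2, by omega⟩
  · refine regular_of_blocks (M (fun n => h (4 * n) % 2)) (M_fg _)
      (fun g hg j hj => M_closed hh g hg j hj) ?_
    intro j hj
    -- the positions depend only on the residue mod 4 and on the parity of `h (4 n)`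
    have hdep : ∀ n n' : ℕ, h (4 * n) % 2 = h (4 * n') % 2 → n % 4 = n' % 4 → s n j = s n' j := by
      intro n n' e1 e2
      obtain ⟨h1, h2, h3⟩ := hs n j hj
      obtain ⟨h1', h2', h3'⟩ := hs n' j hj
      have hpat : ∀ x < 16, (p (16 * n + x) ↔ p (16 * n' + x)) := by
        intro x hx
        simp only [hp]
        rw [pattern hh n n' e1 e2 x hx]
      have hc : Nat.count (fun x => p (16 * n' + x)) (s n j) =
          Nat.count (fun x => p (16 * n + x)) (s n j) := by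
        simp only [Nat.count_eq_card_filter_range]
        congr 1
        apply Finset.filter_congr
        intro x hx
        exact (hpat x (lt_trans (Finset.mem_range.1 hx) h1)).symm
      rw [h3] at hc
      have e3 := Nat.nth_count (p := fun x => p (16 * n' + x)) ((hpat _ h1).1 h2)
      have e4 := Nat.nth_count (p := fun x => p (16 * n' + x)) h2'
      rw [hc] at e3
      rw [h3'] at e4
      rw [← e3, ← e4]
    set G : ℤ → ℕ → ℤ := fun b a =>
      if hex : ∃ n : ℕ, h (4 * n) % 2 = b ∧ n % 4 = a then (s hex.choose j : ℤ) else 0 with hG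
    have hGs : ∀ n : ℕ, G (h (4 * n) % 2) (n % 4) = s n j := by
      intro n
      have hex : ∃ m : ℕ, h (4 * m) % 2 = h (4 * n) % 2 ∧ m % 4 = n % 4 := ⟨n, rfl, rfl⟩
      simp only [hG]
      rw [dif_pos hex]
      exact_mod_cast hdep _ _ hex.choose_spec.1 hex.choose_spec.2
    refine ⟨16, fun a => G 0 a, fun a => G 1 a - G 0 a, fun n => ?_⟩
    dsimp only
    rw [hnth n j hj]
    push_cast
    rw [← hGs n]
    have h2 : h (4 * n) % 2 = 0 ∨ h (4 * n) % 2 = 1 := by omega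
    rcases h2 with h2 | h2 <;> rw [h2] <;> ring

end Pool.Agent.Results.MP_f90694_nt.BothRegular
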